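import Mathlib

/-!
# MP_aff84d_nt: which pairs `(a,b)` make `x^2+y^2+z^2-axyz=b` solvable in integers

A complete, finite, uniform-in-`a` necessary and sufficient condition, proved by Vieta descent.
-/

namespace Pool.Agent.Results.MP_aff84d_nt.FiniteCriterion

/-- The pair `(a,b)` is solvable. -/
def Solvable (a b : ℤ) : Prop :=
  ∃ x y z : ℤ, x ^ 2 + y ^ 2 + z ^ 2 - a * x * y * z = b

/-- Sorting three integers under a symmetric predicate. -/
theorem sort3 (F : ℤ → ℤ → ℤ → Prop) (h12 : ∀ x y z, F x y z → F y x z)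
    (h23 : ∀ x y z, F x y z → F x z y) {x y z : ℤ} (h : F x y z) :
    ∃ x' y' z', x' ≤ y' ∧ y' ≤ z' ∧ F x' y' z' := by
  rcases le_total x y with hxy | hxy
  · rcases le_total y z with hyz | hyz
    · exact ⟨x, y, z, hxy, hyz, h⟩
    · rcases le_total x z with hxz | hxz
      · exact ⟨x, z, y, hxz, hyz, h23 _ _ _ h⟩
      · exact ⟨z, x, y, hxz, hxy, h12 _ _ _ (h23 _ _ _ h)⟩
  · rcases le_total x z with hxz | hxz
    · exact ⟨y, x, z, hxy, hxz, h12 _ _ _ h⟩
    · rcases le_total y z with hyz | hyz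
      · exact ⟨y, z, x, hyz, hxz, h23 _ _ _ (h12 _ _ _ h)⟩
      · exact ⟨z, y, x, hyz, hxy, h12 _ _ _ (h23 _ _ _ (h12 _ _ _ h))⟩

/-- Plus type: a nonnegative sorted solution of `x²+y²+z²+axyz=b`. -/
def Plus (a b : ℤ) : Prop :=
  ∃ x y z : ℤ, x ≤ y ∧ y ≤ z ∧ (0 ≤ x ∧ 0 ≤ y ∧ 0 ≤ z ∧
    x ^ 2 + y ^ 2 + z ^ 2 + a * x * y * z = b)

/-- Reduced minus type. -/
def Minus (a b : ℤ) : Prop :=
  ∃ x y z : ℤ, 0 < x ∧ x ≤ y ∧ y ≤ z ∧ 2 * z ≤ a * x * y ∧
    x ^ 2 + y ^ 2 + z ^ 2 - a * x * y * z = b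

theorem plus_of {a b x y z : ℤ} (hx : 0 ≤ x) (hy : 0 ≤ y) (hz : 0 ≤ z)
    (h : x ^ 2 + y ^ 2 + z ^ 2 + a * x * y * z = b) : Plus a b :=
  sort3 (fun x y z => 0 ≤ x ∧ 0 ≤ y ∧ 0 ≤ z ∧ x ^ 2 + y ^ 2 + z ^ 2 + a * x * y * z = b)
    (fun _ _ _ ⟨h1, h2, h3, h4⟩ => ⟨h2, h1, h3, by rw [← h4]; ring⟩)
    (fun _ _ _ ⟨h1, h2, h3, h4⟩ => ⟨h1, h3, h2, by rw [← h4]; ring⟩) ⟨hx, hy, hz, h⟩

theorem descent (a b : ℤ) : ∀ n : ℕ, ∀ x y z : ℤ, 0 ≤ x → 0 ≤ y → 0 ≤ z →
    x + y + z ≤ n → x ^ 2 + y ^ 2 + z ^ 2 - a * x * y * z = b → Plus a b ∨ Minus a b := by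
  intro n
  induction n with
  | zero =>
    intro x y z hx hy hz hs h
    left
    have hx0 : x = 0 := by push_cast at hs; linarith
    have hy0 : y = 0 := by push_cast at hs; linarith
    have hz0 : z = 0 := by push_cast at hs; linarith
    subst hx0 hy0 hz0
    exact plus_of le_rfl le_rfl le_rfl (by rw [← h]; ring)
  | succ n ih =>
    intro x y z hx hy hz hs h
    obtain ⟨x', y', z', hxy, hyz, hx', hy', hz', hs', h'⟩ :=
      sort3 (fun x y z => 0 ≤ x ∧ 0 ≤ y ∧ 0 ≤ z ∧ x + y + z ≤ ((n + 1 : ℕ) : ℤ) ∧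
        x ^ 2 + y ^ 2 + z ^ 2 - a * x * y * z = b)
      (fun _ _ _ ⟨h1, h2, h3, h4, h5⟩ => ⟨h2, h1, h3, by linarith, by rw [← h5]; ring⟩)
      (fun _ _ _ ⟨h1, h2, h3, h4, h5⟩ => ⟨h1, h3, h2, by linarith, by rw [← h5]; ring⟩)
      ⟨hx, hy, hz, hs, h⟩
    rcases hx'.eq_or_lt with h0 | h0
    · left
      subst h0
      exact plus_of le_rfl hy' hz' (by rw [← h']; ring)
    · rcases le_or_gt (2 * z') (a * x' * y') with hr | hr
      · right
        exact ⟨x', y', z', h0, hxy, hyz, hr, h'⟩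
      · rcases le_or_gt 0 (a * x' * y' - z') with hz2 | hz2
        · refine ih x' y' (a * x' * y' - z') hx' hy' hz2 ?_ (by rw [← h']; ring)
          push_cast at hs'
          linarith
        · left
          refine plus_of (x := x') (y := y') (z := -(a * x' * y' - z')) hx' hy'
            (by linarith) (by rw [← h']; ring)

/-- Normalisation: solvable iff plus or reduced minus type (with `|a|`). -/
theorem solvable_iff (a b : ℤ) : Solvable a b ↔ Plus |a| b ∨ Minus |a| b := by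
  constructor
  · rintro ⟨x, y, z, h⟩
    have key : a * x * y * z = |a| * |x| * |y| * |z| ∨ a * x * y * z = -(|a| * |x| * |y| * |z|) := by
      have := abs_choice (a * x * y * z)
      rw [abs_mul, abs_mul, abs_mul] at this
      rcases this with h | h
      · left; exact h.symm
      · right; rw [h]; ring
    rcases key with k | k
    · refine descent |a| b (|x| + |y| + |z|).toNat |x| |y| |z| (abs_nonneg x) (abs_nonneg y)
        (abs_nonneg z) (Int.self_le_toNat _) ?_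
      rw [sq_abs, sq_abs, sq_abs, ← k, h]
    · left
      refine plus_of (abs_nonneg x) (abs_nonneg y) (abs_nonneg z) ?_
      rw [sq_abs, sq_abs, sq_abs, ← h, k]; ring
  · rintro (⟨x, y, z, -, -, -, -, -, h⟩ | ⟨x, y, z, -, -, -, -, h⟩)
    · rcases abs_choice a with ha | ha
      · refine ⟨-x, y, z, ?_⟩
        rw [← h, ha]; ring
      · refine ⟨x, y, z, ?_⟩
        rw [← h, ha]; ring
    · rcases abs_choice a with ha | ha
      · refine ⟨x, y, z, ?_⟩
        rw [← h, ha]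
      · refine ⟨-x, y, z, ?_⟩
        rw [← h, ha]; ring

/-- Bounds for a reduced minus solution. -/
theorem minus_bounds {a b x y z : ℤ} (hx : 0 < x) (hxy : x ≤ y) (hyz : y ≤ z)
    (hr : 2 * z ≤ a * x * y) (h : x ^ 2 + y ^ 2 + z ^ 2 - a * x * y * z = b) :
    (a * x = 2 ∧ z = y ∧ b = x ^ 2) ∨ (3 ≤ a * x ∧ (a * x - 2) * y ^ 2 ≤ x ^ 2 - b) := by
  have hy : 0 < y := lt_of_lt_of_le hx hxy
  have h2 : 2 ≤ a * x := by
    have h3 : 2 * y ≤ a * x * y := by linarith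
    exact le_of_mul_le_mul_right h3 hy
  rcases h2.eq_or_lt with h3 | h3
  · left
    have hz : z = y := by
      have h6 : a * x * y = 2 * y := by rw [← h3]
      linarith
    subst hz
    refine ⟨h3.symm, rfl, ?_⟩
    rw [← h]
    have h4 : a * x * z * z = 2 * z * z := by rw [← h3]
    nlinarith
  · right
    refine ⟨by linarith, ?_⟩
    have h5 : (z - y) * (z - (a * x * y - y)) ≤ 0 := by
      apply mul_nonpos_of_nonneg_of_nonpos
      · linarith
      · linarith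
    rw [← h]
    nlinarith

theorem sq_bound {a b x y : ℤ} (ha : 0 ≤ a) (hx : 0 < x) (hxy : x ≤ y)
    (h3 : 3 ≤ a * x) (h : (a * x - 2) * y ^ 2 ≤ x ^ 2 - b) : y ^ 2 ≤ 9 - b := by
  have hy : 0 < y := lt_of_lt_of_le hx hxy
  rcases h3.eq_or_lt with h4 | h4
  · have hx3 : x ≤ 3 := by
      have ha1 : 1 ≤ a := by
        by_contra hcon
        have : a = 0 := by omega
        subst this
        simp at h4
      nlinarith
    rw [← h4] at h
    nlinarith
  · have h5 : x ^ 2 ≤ y ^ 2 := by nlinarith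
    have h6 : 2 * y ^ 2 ≤ (a * x - 2) * y ^ 2 := by
      apply mul_le_mul_of_nonneg_right _ (sq_nonneg y)
      linarith
    nlinarith

/-- `b ≥ 0`: the explicit condition. -/
def CritNonneg (a b : ℤ) : Prop :=
  ∃ x y z : ℕ, x ≤ y ∧ y ≤ z ∧ (x : ℤ) ^ 2 + y ^ 2 + z ^ 2 + |a| * x * y * z = b

/-- `b < 0`: the explicit condition. -/
def CritNeg (a b : ℤ) : Prop :=
  ∃ x y z : ℕ, 1 ≤ x ∧ x ≤ y ∧ y ≤ z ∧ 3 ≤ |a| * x ∧ 2 * (z : ℤ) ≤ |a| * x * y ∧
    (|a| * x - 2) * (y : ℤ) ^ 2 ≤ x ^ 2 - b ∧ (y : ℤ) ^ 2 ≤ 9 - b ∧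
    (x : ℤ) ^ 2 + y ^ 2 + z ^ 2 - |a| * x * y * z = b

/-- The uniform condition. -/
def CritDisc (a b : ℤ) : Prop :=
  ∃ x y : ℕ, x ≤ y ∧ (y : ℤ) ^ 2 ≤ |b| + 9 ∧
    IsSquare (a ^ 2 * (x : ℤ) ^ 2 * (y : ℤ) ^ 2 - 4 * ((x : ℤ) ^ 2 + (y : ℤ) ^ 2 - b))

theorem plus_iff (a b : ℤ) : Plus |a| b ↔ CritNonneg a b := by
  constructor
  · rintro ⟨x, y, z, hxy, hyz, hx, hy, hz, h⟩
    lift x to ℕ using hx
    lift y to ℕ using hy
    lift z to ℕ using hz
    exact ⟨x, y, z, by exact_mod_cast hxy, by exact_mod_cast hyz, h⟩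
  · rintro ⟨x, y, z, hxy, hyz, h⟩
    exact ⟨x, y, z, by exact_mod_cast hxy, by exact_mod_cast hyz, by positivity, by positivity,
      by positivity, h⟩

theorem plus_nonneg {a b : ℤ} (h : Plus |a| b) : 0 ≤ b := by
  obtain ⟨x, y, z, hxy, hyz, hx, hy, hz, h⟩ := h
  rw [← h]
  have := abs_nonneg a
  positivity

theorem solvable_nonneg {a b : ℤ} (hb : 0 ≤ b) : Solvable a b ↔ CritNonneg a b := by
  rw [solvable_iff, plus_iff]
  constructor
  · rintro (h | ⟨x, y, z, hx, hxy, hyz, hr, h⟩)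
    · exact h
    · rcases minus_bounds hx hxy hyz hr h with ⟨-, -, hb2⟩ | ⟨h3, h4⟩
      · lift x to ℕ using hx.le
        refine ⟨0, 0, x, le_rfl, Nat.zero_le _, ?_⟩
        rw [hb2]; push_cast; ring
      · have hy : 0 < y := lt_of_lt_of_le hx hxy
        have h5 : x ^ 2 ≤ y ^ 2 := by nlinarith
        have h6 : 1 * y ^ 2 ≤ (|a| * x - 2) * y ^ 2 := by
          apply mul_le_mul_of_nonneg_right _ (sq_nonneg y)
          linarith
        have h7 : b = 0 := by linarith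
        refine ⟨0, 0, 0, le_rfl, le_rfl, ?_⟩
        rw [h7]; simp
  · intro h
    exact Or.inl h

theorem solvable_neg {a b : ℤ} (hb : b < 0) : Solvable a b ↔ CritNeg a b := by
  rw [solvable_iff]
  constructor
  · rintro (h | ⟨x, y, z, hx, hxy, hyz, hr, h⟩)
    · exact absurd (plus_nonneg h) (not_le.mpr hb)
    · rcases minus_bounds hx hxy hyz hr h with ⟨-, -, hb2⟩ | ⟨h3, h4⟩
      · exfalso
        have := sq_nonneg x
        linarith
      · have h5 := sq_bound (abs_nonneg a) hx hxy h3 h4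
        have hy : 0 < y := lt_of_lt_of_le hx hxy
        lift x to ℕ using hx.le
        lift y to ℕ using hy.le
        lift z to ℕ using (hy.le.trans hyz)
        exact ⟨x, y, z, by exact_mod_cast hx, by exact_mod_cast hxy, by exact_mod_cast hyz, h3, hr,
          h4, h5, h⟩
  · rintro ⟨x, y, z, hx, hxy, hyz, -, hr, -, -, h⟩
    right
    exact ⟨x, y, z, by exact_mod_cast hx, by exact_mod_cast hxy, by exact_mod_cast hyz, hr, h⟩

theorem solvable_of_disc {a b : ℤ} (x y : ℤ)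
    (h : IsSquare (a ^ 2 * x ^ 2 * y ^ 2 - 4 * (x ^ 2 + y ^ 2 - b))) : Solvable a b := by
  obtain ⟨t, ht⟩ := h
  have hpar : ∃ z : ℤ, 2 * z = a * x * y + t := by
    have h1 : Even ((a * x * y + t) * (a * x * y - t)) := by
      refine ⟨2 * (x ^ 2 + y ^ 2 - b), ?_⟩
      linear_combination ht
    rcases Int.even_mul.mp h1 with h2 | h2
    · obtain ⟨k, hk⟩ := h2
      exact ⟨k, by linarith⟩
    · obtain ⟨k, hk⟩ := h2
      exact ⟨k + t, by linarith⟩
  obtain ⟨z, hz⟩ := hpar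
  refine ⟨x, y, z, ?_⟩
  have h4 : t = 2 * z - a * x * y := by linarith
  rw [h4] at ht
  linarith

theorem solvable_disc (a b : ℤ) : Solvable a b ↔ CritDisc a b := by
  constructor
  · intro h
    rcases le_or_gt 0 b with hb | hb
    · obtain ⟨x, y, z, hxy, hyz, h⟩ := (solvable_nonneg hb).mp h
      refine ⟨x, y, hxy, ?_, ⟨2 * z + |a| * x * y, ?_⟩⟩
      · rw [abs_of_nonneg hb, ← h]
        have := abs_nonneg a
        have h2 : 0 ≤ |a| * x * y * z := by positivity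
        have := sq_nonneg (x : ℤ)
        have := sq_nonneg (z : ℤ)
        linarith
      · rw [← sq_abs a]
        linear_combination (-4) * h
    · obtain ⟨x, y, z, hx, hxy, hyz, -, -, -, h5, h⟩ := (solvable_neg hb).mp h
      refine ⟨x, y, hxy, ?_, ⟨2 * z - |a| * x * y, ?_⟩⟩
      · rw [abs_of_neg hb]; linarith
      · rw [← sq_abs a]
        linear_combination (-4) * h
  · rintro ⟨x, y, -, -, h⟩
    exact solvable_of_disc x y h

/-- Sum of two squares. -/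
def TwoSq (b : ℤ) : Prop := ∃ x y : ℤ, x ^ 2 + y ^ 2 = b

theorem large_a_nonneg {a b : ℤ} (hb : 0 ≤ b) (hab : b < |a| + 3) : Solvable a b ↔ TwoSq b := by
  constructor
  · intro h
    obtain ⟨x, y, z, hxy, hyz, h⟩ := (solvable_nonneg hb).mp h
    rcases Nat.eq_zero_or_pos x with hx | hx
    · subst hx
      exact ⟨y, z, by rw [← h]; push_cast; ring⟩
    · exfalso
      have hx' : (1 : ℤ) ≤ x := by exact_mod_cast hx
      have hy' : (1 : ℤ) ≤ y := by exact_mod_cast hx.trans_le hxy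
      have hz' : (1 : ℤ) ≤ z := by exact_mod_cast (hx.trans_le hxy).trans_le hyz
      have h1 : (1 : ℤ) ≤ (x : ℤ) * y * z := by
        have h11 : (1 : ℤ) ≤ (x : ℤ) * y := one_le_mul_of_one_le_of_one_le hx' hy'
        exact one_le_mul_of_one_le_of_one_le h11 hz'
      have h2 : |a| * 1 ≤ |a| * ((x : ℤ) * y * z) := mul_le_mul_of_nonneg_left h1 (abs_nonneg a)
      have e : |a| * ((x : ℤ) * y * z) = |a| * x * y * z := by ring
      nlinarith
  · rintro ⟨x, y, h⟩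
    exact ⟨x, y, 0, by rw [← h]; ring⟩

theorem large_a_neg {a b : ℤ} (hb : b < 0) (h : Solvable a b) : 1 ≤ |a| ∧ |a| ≤ 3 - b := by
  obtain ⟨x, y, z, hx, hxy, hyz, h3, hr, h4, h5, h⟩ := (solvable_neg hb).mp h
  have hx' : (1 : ℤ) ≤ x := by exact_mod_cast hx
  have hxy' : (x : ℤ) ≤ y := by exact_mod_cast hxy
  have ha0 := abs_nonneg a
  constructor
  · by_contra hcon
    have : |a| = 0 := by linarith [lt_of_not_ge hcon, Int.lt_iff_add_one_le.mp (lt_of_not_ge hcon)]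
    rw [this] at h3
    simp at h3
  · -- (|a| x - 2) y² ≤ x² - b
    by_contra hcon
    have h6 : 4 - b ≤ |a| := by linarith [lt_of_not_ge hcon, Int.lt_iff_add_one_le.mp (lt_of_not_ge hcon)]
    have h7 : (4 - b) ≤ |a| * x := by nlinarith
    have h8 : (x : ℤ) ^ 2 ≤ (y : ℤ) ^ 2 := by nlinarith
    have h9 : (1 : ℤ) ≤ (y : ℤ) ^ 2 := by nlinarith
    have h10 : (2 - b) * (y : ℤ) ^ 2 ≤ (|a| * x - 2) * (y : ℤ) ^ 2 := by
      apply mul_le_mul_of_nonneg_right _ (sq_nonneg _)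
      linarith
    nlinarith

/-- **Main theorem**: complete finite necessary and sufficient conditions. -/
theorem result :
    (∀ a b : ℤ, 0 ≤ b → (Solvable a b ↔ CritNonneg a b)) ∧
    (∀ a b : ℤ, b < 0 → (Solvable a b ↔ CritNeg a b)) ∧
    (∀ a b : ℤ, Solvable a b ↔ CritDisc a b) ∧
    (∀ a b : ℤ, 0 ≤ b → b < |a| + 3 → (Solvable a b ↔ TwoSq b)) ∧
    (∀ a b : ℤ, b < 0 → Solvable a b → 1 ≤ |a| ∧ |a| ≤ 3 - b) ∧
    (∀ b : ℤ, Solvable (3 - b) b) :=
  ⟨fun _ _ hb => solvable_nonneg hb, fun _ _ hb => solvable_neg hb, solvable_disc,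
    fun _ _ hb hab => large_a_nonneg hb hab, fun _ _ hb h => large_a_neg hb h,
    fun b => ⟨1, 1, 1, by ring⟩⟩

end Pool.Agent.Results.MP_aff84d_nt.FiniteCriterion
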